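import Pool.Agent.Helper68.QC.St4

set_option autoImplicit false

open MeasureTheory Set Filter Topology Complex
open scoped ContDiff ComplexConjugate ENNReal

namespace Pool.Agent.Helper5.QCM

open Pool.Agent.Helper68.QC

/-- two continuous families of matrices of determinant one which are equal up to sign and equal at one point -/
private theorem sign_RPX (c : ℂ) (r : ℝ) (X Y : ℂ → SL)
    (hX : ∀ i j, ContinuousOn (fun t => X t i j) (Metric.ball c r))
    (hY : ∀ i j, ContinuousOn (fun t => Y t i j) (Metric.ball c r))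
    (h : ∀ t ∈ Metric.ball c r, X t = Y t ∨ X t = - Y t) (hc : c ∈ Metric.ball c r) (h0 : X c = Y c) :
    ∀ t ∈ Metric.ball c r, X t = Y t := by
  have hcon : IsPreconnected (Metric.ball c r) := (convex_ball c r).isPreconnected
  have : PreconnectedSpace (Metric.ball c r) := Subtype.preconnectedSpace hcon
  have hX' : ∀ i j, Continuous (fun t : Metric.ball c r => X t i j) := fun i j =>
    continuousOn_iff_continuous_domRestrict.1 (hX i j)
  have hY' : ∀ i j, Continuous (fun t : Metric.ball c r => Y t i j) := fun i j =>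
    continuousOn_iff_continuous_domRestrict.1 (hY i j)
  let S : Set (Metric.ball c r) := {t | ∀ i j, X t i j = Y t i j}
  have hS : IsClosed S := by
    have e : S = ⋂ i, ⋂ j, {t : Metric.ball c r | X t i j = Y t i j} := by
      ext t
      simp [S]
    rw [e]
    exact isClosed_iInter fun i => isClosed_iInter fun j => isClosed_eq (hX' i j) (hY' i j)
  have hS' : IsClosed Sᶜ := by
    have e : Sᶜ = ⋂ i, ⋂ j, {t : Metric.ball c r | X t i j = - Y t i j} := by
      ext t
      simp only [S, mem_compl_iff, mem_ofPred_eq, mem_iInter]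
      constructor
      · intro hn i j
        rcases h t t.2 with h1 | h1
        · exact absurd (fun i j => by rw [h1]) hn
        · rw [h1]
          rfl
      · intro h1 h2
        have h3 : ∀ i j, Y t i j = 0 := by
          intro i j
          have h4 := h1 i j
          rw [h2 i j] at h4
          exact self_eq_neg.1 h4
        have h5 := (Y t).det_coe
        rw [Matrix.det_fin_two] at h5
        have e1 : (Y t).1 0 0 = 0 := h3 0 0
        have e2 : (Y t).1 0 1 = 0 := h3 0 1
        rw [e1, e2] at h5
        simp at h5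
    rw [e]
    exact isClosed_iInter fun i => isClosed_iInter fun j => isClosed_eq (hX' i j) (hY' i j).neg
  have hclopen : IsClopen S := ⟨hS, isClosed_compl_iff.1 hS'⟩
  have huniv := hclopen.eq_univ ⟨⟨c, hc⟩, fun i j => by rw [h0]⟩
  intro t ht
  have h1 : (⟨t, ht⟩ : Metric.ball c r) ∈ S := by
    rw [huniv]
    trivial
  ext i j
  exact h1 i j

theorem pRPX : Pool.Agent.Helper68.QC.StRPX := by
  intro hL hI k hk c r μ hμ hμd Γ instΓ ρ₀ σ hinv hσ hr
  have hc : c ∈ Metric.ball c r := Metric.mem_ball_self hr
  have hex : ∀ γ : Γ, ∃ B : ℂ → SL, B c = σ γ ∧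
      (∀ i j, DifferentiableOn ℂ (fun t => B t i j) (Metric.ball c r)) ∧
      ∀ t ∈ Metric.ball c r, Intw (ρ₀ γ) (B t) (nq (μ t)) := fun γ =>
    hL k hk c r μ hμ hμd (ρ₀ γ) (σ γ) (fun t ht => hinv t ht γ) (hσ γ) hr
  choose B hBc hBd hBi using hex
  have hmul : ∀ t ∈ Metric.ball c r, ∀ γ γ' : Γ, B (γ * γ') t = B γ t * B γ' t := by
    intro t ht γ γ'
    refine sign_RPX c r (B (γ * γ')) (fun t => B γ t * B γ' t) (fun i j => (hBd _ i j).continuousOn) ?_ ?_ hc ?_
      t ht
    · intro i j
      have e : (fun t => (B γ t * B γ' t) i j) =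
          fun t => B γ t i 0 * B γ' t 0 j + B γ t i 1 * B γ' t 1 j := by
        funext t
        change ((B γ t * B γ' t : SL) : Matrix (Fin 2) (Fin 2) ℂ) i j = _
        rw [Matrix.SpecialLinearGroup.coe_mul, Matrix.mul_apply, Fin.sum_univ_two]
      rw [e]
      exact ((hBd γ i 0).continuousOn.mul (hBd γ' 0 j).continuousOn).add
        ((hBd γ i 1).continuousOn.mul (hBd γ' 1 j).continuousOn)
    · intro t ht
      have h1 := hBi (γ * γ') t ht
      rw [map_mul] at h1
      have h2 := hI.2.1 _ _ _ _ _ (hBi γ t ht) (hBi γ' t ht)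
      exact hI.1 _ _ _ _ h2 h1
    · rw [hBc, map_mul, hBc, hBc]
  classical
  refine ⟨fun t => if h : t ∈ Metric.ball c r then MonoidHom.mk' (fun γ => B γ t) (hmul t h) else σ, ?_, ?_, ?_⟩
  · simp only
    rw [dif_pos hc]
    ext1 γ
    exact hBc γ
  · intro γ i j
    refine (hBd γ i j).congr fun t ht => ?_
    simp only
    rw [dif_pos ht]
    rfl
  · intro t ht γ
    simp only
    rw [dif_pos ht]
    exact hBi γ t ht

end Pool.Agent.Helper5.QCM
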